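import Pool.Agent.helper74.GN.Shape

/-!
# GNU project (MP_d11331_al), module GN11: the index computations
-/

namespace Pool.Agent.helper74.GN

section
variable {B C D : ℕ}

/-- `{θ | θ.2.2 ^ 6 = 1}` -/
private def h85_S6 (B C D : ℕ) : Subgroup (Th B C D) where
  carrier := {θ | θ.2.2 ^ 6 = 1}
  mul_mem' := by
    intro a b (ha : a.2.2 ^ 6 = 1) (hb : b.2.2 ^ 6 = 1)
    show (a * b).2.2 ^ 6 = 1
    rw [Prod.snd_mul, Prod.snd_mul, mul_pow, ha, hb, one_mul]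
  one_mem' := one_pow 6
  inv_mem' := by
    intro a (ha : a.2.2 ^ 6 = 1)
    show (a⁻¹).2.2 ^ 6 = 1
    rw [Prod.snd_inv, Prod.snd_inv, inv_pow, ha, inv_one]

private lemma h85_mem_SB {θ : Th B C D} : θ ∈ SB B C D ↔ (θ.1 = 1 ∨ θ.1 = -1) := Iff.rfl

private lemma h85_mem_SD {θ : Th B C D} : θ ∈ SD B C D ↔ θ.2.2 ^ 3 = 1 := Iff.rfl

private lemma h85_mem_S6 {θ : Th B C D} : θ ∈ h85_S6 B C D ↔ θ.2.2 ^ 6 = 1 := Iff.rfl

private lemma h85_mem_TT {i : Fin 3} {c : Fin 2} {θ : Th B C D} : θ ∈ TT B C D i c ↔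
    ((c = 1 → θ.2.1 = 1) ∧ (i = 0 → (θ.1 = 1 ∨ θ.1 = -1)) ∧
    (i = 1 → (θ.2.2 = 1 ∨ θ.2.2 = -1)) ∧
    (i = 2 → ((θ.1 = 1 ∧ θ.2.2 = 1) ∨ (θ.1 = -1 ∧ θ.2.2 = -1)))) := Iff.rfl

private lemma h85_sq {p : ℕ} (hp : p.Prime) (u : (ZMod p)ˣ) : u ^ 2 = 1 ↔ (u = 1 ∨ u = -1) := by
  have := Fact.mk hp
  constructor
  · intro h
    have h1 : ((u : ZMod p)) ^ 2 = 1 := by
      rw [← Units.val_pow_eq_pow_val, h]; rfl
    have h3 : ((u : ZMod p) - 1) * ((u : ZMod p) + 1) = 0 := by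
      have : ((u : ZMod p) - 1) * ((u : ZMod p) + 1) = (u : ZMod p) ^ 2 - 1 := by ring
      rw [this, h1, sub_self]
    rcases mul_eq_zero.mp h3 with h2 | h2
    · exact Or.inl (Units.ext (sub_eq_zero.mp h2))
    · exact Or.inr (Units.ext (eq_neg_of_add_eq_zero_left h2))
  · rintro (h | h) <;> simp [h]

private lemma h85_index_SB (hB : B.Prime) (h2 : 2 < B) : (SB B C D).index = (B - 1) / 2 := by
  have := Fact.mk hB
  have e : SB B C D = ((powMonoidHom 2 : (ZMod B)ˣ →* (ZMod B)ˣ).ker).comap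
      (MonoidHom.fst (ZMod B)ˣ ((ZMod C)ˣ × (ZMod D)ˣ)) := by
    ext θ
    rw [h85_mem_SB, Subgroup.mem_comap, MonoidHom.mem_ker, powMonoidHom_apply, h85_sq hB]
    rfl
  rw [e, Subgroup.index_comap_of_surjective _ (fun x => ⟨(x, 1), rfl⟩),
    IsCyclic.index_powMonoidHom_ker, Nat.card_eq_fintype_card, ZMod.card_units]
  congr 1
  have hodd : B % 2 = 1 := by
    rcases hB.eq_two_or_odd with h | h
    · omega
    · exact h
  have : 2 ∣ B - 1 := by omega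
  exact Nat.gcd_eq_right this

private lemma h85_index_S6 (hD : D.Prime) (h6 : 6 ∣ D - 1) :
    (h85_S6 B C D).index = (D - 1) / 6 := by
  have := Fact.mk hD
  have e : h85_S6 B C D = ((powMonoidHom 6 : (ZMod D)ˣ →* (ZMod D)ˣ).ker).comap
      ((MonoidHom.snd (ZMod C)ˣ (ZMod D)ˣ).comp
        (MonoidHom.snd (ZMod B)ˣ ((ZMod C)ˣ × (ZMod D)ˣ))) := by
    ext θ
    rw [h85_mem_S6, Subgroup.mem_comap, MonoidHom.mem_ker, powMonoidHom_apply]
    rfl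
  rw [e, Subgroup.index_comap_of_surjective _ (fun x => ⟨(1, 1, x), rfl⟩),
    IsCyclic.index_powMonoidHom_ker, Nat.card_eq_fintype_card, ZMod.card_units,
    Nat.gcd_eq_right h6]

/-- two subgroups whose product is everything -/
private lemma h85_top {S T : Subgroup (Th B C D)}
    (h : ∀ θ : Th B C D, ∃ s ∈ S, ∃ t ∈ T, s * t = θ) : (S ⊔ T).index = 1 := by
  rw [Subgroup.index_eq_one, eq_top_iff]
  intro θ _
  obtain ⟨s, hs, t, ht, e⟩ := h θ
  exact Subgroup.mem_sup.mpr ⟨s, hs, t, ht, e⟩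

private lemma h85_SB_inl {S : Subgroup (Th B C D)} (h : ∀ θ : Th B C D, θ.2.1 = 1 → θ ∈ S) :
    (SB B C D ⊔ S).index = 1 := by
  refine h85_top fun θ => ⟨(1, θ.2.1, 1), Or.inl rfl, (θ.1, 1, θ.2.2), h _ rfl, ?_⟩
  simp

private lemma h85_SD_inl {S : Subgroup (Th B C D)} (h : ∀ θ : Th B C D, θ.2.1 = 1 → θ ∈ S) :
    (SD B C D ⊔ S).index = 1 := by
  refine h85_top fun θ => ⟨(1, θ.2.1, 1), one_pow 3, (θ.1, 1, θ.2.2), h _ rfl, ?_⟩
  simp

private lemma h85_SB_TT0 (hB : B.Prime) (h2 : 2 < B) (c : Fin 2) :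
    (SB B C D ⊔ TT B C D 0 c).index = (B - 1) / 2 := by
  rw [← h85_index_SB (C := C) (D := D) hB h2]
  congr 1
  rw [sup_eq_left]
  intro θ hθ
  exact (h85_mem_TT.mp hθ).2.1 rfl

private lemma h85_SB_TT2 (hB : B.Prime) (h2 : 2 < B) (c : Fin 2) :
    (SB B C D ⊔ TT B C D 2 c).index = (B - 1) / 2 := by
  rw [← h85_index_SB (C := C) (D := D) hB h2]
  congr 1
  rw [sup_eq_left]
  intro θ hθ
  rcases (h85_mem_TT.mp hθ).2.2.2 rfl with h | h
  · exact Or.inl h.1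
  · exact Or.inr h.1

private lemma h85_SB_TT1 (c : Fin 2) : (SB B C D ⊔ TT B C D 1 c).index = 1 := by
  refine h85_top fun θ => ⟨(1, θ.2.1, θ.2.2), Or.inl rfl, (θ.1, 1, 1), ?_,
    Prod.ext (by simp) (Prod.ext (by simp) (by simp))⟩
  rw [h85_mem_TT]
  simp

private lemma h85_SD_TT0 (c : Fin 2) : (SD B C D ⊔ TT B C D 0 c).index = 1 := by
  refine h85_top fun θ => ⟨(θ.1, θ.2.1, 1), one_pow 3, (1, 1, θ.2.2), ?_, by simp⟩
  rw [h85_mem_TT]
  simp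

private lemma h85_three {p : ℕ} (hp : p.Prime) (u : (ZMod p)ˣ) (h : u ^ 6 = 1) :
    u ^ 3 = 1 ∨ (-u) ^ 3 = 1 := by
  have h1 : (u ^ 3) ^ 2 = 1 := by rw [← pow_mul]; exact h
  rcases (h85_sq hp _).mp h1 with h2 | h2
  · exact Or.inl h2
  · refine Or.inr ?_
    have : (-u) ^ 3 = -(u ^ 3) := by
      rw [Odd.neg_pow (by decide)]
    rw [this, h2, neg_neg]

private lemma h85_SD_TT1 (hD : D.Prime) (h6 : 6 ∣ D - 1) (c : Fin 2) :
    (SD B C D ⊔ TT B C D 1 c).index = (D - 1) / 6 := by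
  rw [← h85_index_S6 (B := B) (C := C) hD h6]
  congr 1
  apply le_antisymm
  · refine sup_le ?_ ?_
    · intro θ hθ
      rw [h85_mem_SD] at hθ
      rw [h85_mem_S6, show (6 : ℕ) = 3 * 2 by norm_num, pow_mul, hθ, one_pow]
    · intro θ hθ
      rw [h85_mem_S6]
      rcases (h85_mem_TT.mp hθ).2.2.1 rfl with h | h
      · rw [h, one_pow]
      · rw [h, Even.neg_pow (by decide), one_pow]
  · intro θ hθ
    rw [h85_mem_S6] at hθ
    rcases h85_three hD _ hθ with h | h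
    · exact Subgroup.mem_sup_left h
    · refine Subgroup.mem_sup.mpr ⟨(θ.1, θ.2.1, -θ.2.2), h, (1, 1, -1), ?_, ?_⟩
      · rw [h85_mem_TT]; simp
      · simp

private lemma h85_SD_TT2 (hD : D.Prime) (h6 : 6 ∣ D - 1) (c : Fin 2) :
    (SD B C D ⊔ TT B C D 2 c).index = (D - 1) / 6 := by
  rw [← h85_index_S6 (B := B) (C := C) hD h6]
  congr 1
  apply le_antisymm
  · refine sup_le ?_ ?_
    · intro θ hθ
      rw [h85_mem_SD] at hθ
      rw [h85_mem_S6, show (6 : ℕ) = 3 * 2 by norm_num, pow_mul, hθ, one_pow]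
    · intro θ hθ
      rw [h85_mem_S6]
      rcases (h85_mem_TT.mp hθ).2.2.2 rfl with h | h
      · rw [h.2, one_pow]
      · rw [h.2, Even.neg_pow (by decide), one_pow]
  · intro θ hθ
    rw [h85_mem_S6] at hθ
    rcases h85_three hD _ hθ with h | h
    · exact Subgroup.mem_sup_left h
    · refine Subgroup.mem_sup.mpr ⟨(-θ.1, θ.2.1, -θ.2.2), h, (-1, 1, -1), ?_, ?_⟩
      · rw [h85_mem_TT]; simp
      · simp

end

private lemma h85_six {D : ℕ} (h : D % 42 = 1) : 6 ∣ D - 1 := by omega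

theorem card_Idx {B C D N₁ N₂ : ℕ} (h : HypQ B C D) (M₁ : Menu B C D N₁) (M₂ : Menu B C D N₂)
    (h₁ : IsW M₁) (h₂ : IsV M₂) :
    Nat.card (Idx M₁ M₂) = 68 + 4 * C + 4 * B + 4 * ((D - 1) / 6) := by
  classical
  obtain ⟨e₁, a1, a2, a3⟩ := h₁
  obtain ⟨e₂, b1, b2⟩ := h₂
  have fB := Fact.mk h.pB
  have fC := Fact.mk h.pC
  have fD := Fact.mk h.pD
  have hB := h.B7
  have hC := h.C7
  have h6 := h85_six h.D42
  have hodd : C % 2 = 1 := by
    rcases h.pC.eq_two_or_odd with h' | h'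
    · omega
    · exact h'
  have hoddB : B % 2 = 1 := by
    rcases h.pB.eq_two_or_odd with h' | h'
    · omega
    · exact h'
  rw [Nat.card_sigma]
  have e : (∑ p : M₁.τ × M₂.τ, Nat.card (Th B C D ⧸ (M₁.S p.1 ⊔ M₂.S p.2))) =
      ∑ x : Fin 5 ⊕ Fin 2 ⊕ Unit, ∑ y : Fin (3 + (C + 3) / 2) ⊕ (Fin 3 × Fin 2),
        (M₁.S (e₁.symm x) ⊔ M₂.S (e₂.symm y)).index := by
    rw [Fintype.sum_prod_type, ← e₁.symm.sum_comp]
    refine Finset.sum_congr rfl fun x _ => ?_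
    rw [← e₂.symm.sum_comp]
    rfl
  rw [e]
  simp only [Fintype.sum_sum_type, Fintype.sum_prod_type, Finset.univ_unique, Finset.sum_singleton]
  have t1 : ∀ (i : Fin 5) (S : Subgroup (Th B C D)), (M₁.S (e₁.symm (.inl i)) ⊔ S).index = 1 := by
    intro i S
    rw [(a1 i).1, top_sup_eq, Subgroup.index_top]
  have t2 : ∀ (i : Fin 2) j, (M₁.S (e₁.symm (.inr (.inl i))) ⊔ M₂.S (e₂.symm (.inl j))).index = 1 := by
    intro i j
    rw [(a2 i).1, h85_SB_inl (b1 j).2]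
  have t3 : ∀ (u : Unit) j, (M₁.S (e₁.symm (.inr (.inr u))) ⊔ M₂.S (e₂.symm (.inl j))).index = 1 := by
    intro u j
    rw [(a3 u).1, h85_SD_inl (b1 j).2]
  have t4 : ∀ (i : Fin 2) (j : Fin 3) (c : Fin 2),
      (M₁.S (e₁.symm (.inr (.inl i))) ⊔ M₂.S (e₂.symm (.inr (j, c)))).index =
        if j = 1 then 1 else (B - 1) / 2 := by
    intro i j c
    rw [(a2 i).1, (b2 j c).1]
    fin_cases j
    · exact h85_SB_TT0 h.pB (by omega) c
    · exact h85_SB_TT1 c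
    · exact h85_SB_TT2 h.pB (by omega) c
  have t5 : ∀ (u : Unit) (j : Fin 3) (c : Fin 2),
      (M₁.S (e₁.symm (.inr (.inr u))) ⊔ M₂.S (e₂.symm (.inr (j, c)))).index =
        if j = 0 then 1 else (D - 1) / 6 := by
    intro u j c
    rw [(a3 u).1, (b2 j c).1]
    fin_cases j
    · exact h85_SD_TT0 c
    · exact h85_SD_TT1 h.pD h6 c
    · exact h85_SD_TT2 h.pD h6 c
  have s4 : ∑ j : Fin 3, 2 * (if j = 1 then 1 else (B - 1) / 2) =
      2 * ((B - 1) / 2) + 2 + 2 * ((B - 1) / 2) := by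
    rw [Fin.sum_univ_three]
    rfl
  have s5 : ∑ j : Fin 3, 2 * (if j = 0 then 1 else (D - 1) / 6) =
      2 + 2 * ((D - 1) / 6) + 2 * ((D - 1) / 6) := by
    rw [Fin.sum_univ_three]
    rfl
  simp only [t1, t2, t3, t4, t5, Finset.sum_const, Finset.card_univ, Fintype.card_fin,
    smul_eq_mul, mul_one, s4, s5]
  have := h.pB.two_le
  omega

private lemma h85_sub {α : Type} [Fintype α] (P : α → Prop) (f : α → ℕ) [DecidablePred P] :
    ∑ p : {p // P p}, f p.1 = ∑ p : α, if P p then f p else 0 := by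
  rw [← Finset.sum_filter]
  exact (Finset.sum_subtype (Finset.univ.filter P) (by simp) f).symm

theorem card_IdxD {B C D N₁ N₂ : ℕ} (h : HypQ B C D) (M₁ : Menu B C D N₁) (M₂ : Menu B C D N₂)
    (h₁ : IsW M₁) (h₂ : IsV M₂) :
    Nat.card (IdxD M₁ M₂) = 7 * ((C + 9) / 2) + 2 * B + 8 := by
  classical
  obtain ⟨e₁, a1, a2, a3⟩ := h₁
  obtain ⟨e₂, b1, b2⟩ := h₂
  have fB := Fact.mk h.pB
  have fC := Fact.mk h.pC
  have fD := Fact.mk h.pD
  have hB := h.B7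
  have hC := h.C7
  have hodd : C % 2 = 1 := by
    rcases h.pC.eq_two_or_odd with h' | h'
    · omega
    · exact h'
  have hoddB : B % 2 = 1 := by
    rcases h.pB.eq_two_or_odd with h' | h'
    · omega
    · exact h'
  rw [Nat.card_sigma]
  have e : (∑ p : {p : M₁.τ × M₂.τ // M₁.DT p.1 ∧ M₂.DT p.2},
      Nat.card (Th B C D ⧸ (M₁.S p.1.1 ⊔ M₂.S p.1.2))) =
      ∑ x : Fin 5 ⊕ Fin 2 ⊕ Unit, ∑ y : Fin (3 + (C + 3) / 2) ⊕ (Fin 3 × Fin 2),
        if (M₁.DT (e₁.symm x) ∧ M₂.DT (e₂.symm y)) then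
          (M₁.S (e₁.symm x) ⊔ M₂.S (e₂.symm y)).index else 0 := by
    have e0 := h85_sub (fun p : M₁.τ × M₂.τ => M₁.DT p.1 ∧ M₂.DT p.2)
      (fun p => (M₁.S p.1 ⊔ M₂.S p.2).index)
    refine e0.trans ?_
    rw [Fintype.sum_prod_type, ← e₁.symm.sum_comp]
    refine Finset.sum_congr rfl fun x _ => ?_
    rw [← e₂.symm.sum_comp]
  rw [e]
  simp only [Fintype.sum_sum_type, Fintype.sum_prod_type, Finset.univ_unique, Finset.sum_singleton]
  have t1 : ∀ (i : Fin 5) (y : Fin (3 + (C + 3) / 2)),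
      (if (M₁.DT (e₁.symm (.inl i)) ∧ M₂.DT (e₂.symm (.inl y))) then
        (M₁.S (e₁.symm (.inl i)) ⊔ M₂.S (e₂.symm (.inl y))).index else 0) = 1 := by
    intro i y
    rw [if_pos ⟨(a1 i).2, (b1 y).1⟩, (a1 i).1, top_sup_eq, Subgroup.index_top]
  have t1' : ∀ (i : Fin 5) (j : Fin 3) (c : Fin 2),
      (if (M₁.DT (e₁.symm (.inl i)) ∧ M₂.DT (e₂.symm (.inr (j, c)))) then
        (M₁.S (e₁.symm (.inl i)) ⊔ M₂.S (e₂.symm (.inr (j, c)))).index else 0) =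
        if j = 0 then 1 else 0 := by
    intro i j c
    by_cases hj : j = 0
    · rw [if_pos ⟨(a1 i).2, ((b2 j c).2).mpr hj⟩, if_pos hj, (a1 i).1, top_sup_eq,
        Subgroup.index_top]
    · rw [if_neg (fun h' => hj (((b2 j c).2).mp h'.2)), if_neg hj]
  have t2 : ∀ (i : Fin 2) (y : Fin (3 + (C + 3) / 2)),
      (if (M₁.DT (e₁.symm (.inr (.inl i))) ∧ M₂.DT (e₂.symm (.inl y))) then
        (M₁.S (e₁.symm (.inr (.inl i))) ⊔ M₂.S (e₂.symm (.inl y))).index else 0) = 1 := by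
    intro i y
    rw [if_pos ⟨(a2 i).2, (b1 y).1⟩, (a2 i).1, h85_SB_inl (b1 y).2]
  have t2' : ∀ (i : Fin 2) (j : Fin 3) (c : Fin 2),
      (if (M₁.DT (e₁.symm (.inr (.inl i))) ∧ M₂.DT (e₂.symm (.inr (j, c)))) then
        (M₁.S (e₁.symm (.inr (.inl i))) ⊔ M₂.S (e₂.symm (.inr (j, c)))).index else 0) =
        if j = 0 then (B - 1) / 2 else 0 := by
    intro i j c
    by_cases hj : j = 0
    · rw [if_pos ⟨(a2 i).2, ((b2 j c).2).mpr hj⟩, if_pos hj, (a2 i).1, (b2 j c).1, hj,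
        h85_SB_TT0 h.pB (by omega) c]
    · rw [if_neg (fun h' => hj (((b2 j c).2).mp h'.2)), if_neg hj]
  have t3 : ∀ (u : Unit) (y : Fin (3 + (C + 3) / 2)),
      (if (M₁.DT (e₁.symm (.inr (.inr u))) ∧ M₂.DT (e₂.symm (.inl y))) then
        (M₁.S (e₁.symm (.inr (.inr u))) ⊔ M₂.S (e₂.symm (.inl y))).index else 0) = 0 := by
    intro u y
    rw [if_neg (fun h' => (a3 u).2 h'.1)]
  have t3' : ∀ (u : Unit) (j : Fin 3) (c : Fin 2),
      (if (M₁.DT (e₁.symm (.inr (.inr u))) ∧ M₂.DT (e₂.symm (.inr (j, c)))) then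
        (M₁.S (e₁.symm (.inr (.inr u))) ⊔ M₂.S (e₂.symm (.inr (j, c)))).index else 0) = 0 := by
    intro u j c
    rw [if_neg (fun h' => (a3 u).2 h'.1)]
  have s1 : ∑ j : Fin 3, 2 * (if j = 0 then 1 else 0) = 2 := by
    rw [Fin.sum_univ_three]
    rfl
  have s2 : ∑ j : Fin 3, 2 * (if j = 0 then (B - 1) / 2 else 0) = 2 * ((B - 1) / 2) := by
    rw [Fin.sum_univ_three]
    rfl
  simp only [t1, t1', t2, t2', t3, t3', Finset.sum_const, Finset.card_univ, Fintype.card_fin,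
    smul_eq_mul, mul_one, s1, s2]
  have := h.pB.two_le
  omega

end Pool.Agent.helper74.GN
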