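import Pool.Agent.helper74.GN.Defs

/-!
# GNU project (MP_d11331_al), module GN12: existence of `w` and `v`
-/

namespace Pool.Agent.helper74.GN

private lemma h85_crt {m n : ℕ} (co : m.Coprime n) (a b : ℕ) (ha : a.Coprime m)
    (hb : b.Coprime n) : ∃ k : ℕ, k.Coprime (m * n) ∧ (k : ZMod m) = a ∧ (k : ZMod n) = b := by
  obtain ⟨k, h1, h2⟩ := Nat.chineseRemainder co a b
  refine ⟨k, ?_, (ZMod.natCast_eq_natCast_iff k a m).mpr h1,
    (ZMod.natCast_eq_natCast_iff k b n).mpr h2⟩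
  refine Nat.Coprime.mul_right ?_ ?_
  · have : Nat.gcd k m = Nat.gcd a m := h1.gcd_eq
    rw [Nat.Coprime, this]; exact ha
  · have : Nat.gcd k n = Nat.gcd b n := h2.gcd_eq
    rw [Nat.Coprime, this]; exact hb

private lemma h85_down {m n k : ℕ} {a : ℕ} (h : (k : ZMod (m * n)) = a) :
    (k : ZMod m) = a ∧ (k : ZMod n) = a := by
  rw [ZMod.natCast_eq_natCast_iff] at h
  exact ⟨(ZMod.natCast_eq_natCast_iff _ _ _).mpr (Nat.ModEq.of_mul_right _ h),
    (ZMod.natCast_eq_natCast_iff _ _ _).mpr (Nat.ModEq.of_mul_left _ h)⟩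

private lemma h85_four {q₁ q₂ q₃ q₄ : ℕ} (h₁ : q₁.Prime) (h₂ : q₂.Prime) (h₃ : q₃.Prime)
    (h₄ : q₄.Prime) (h12 : q₁ ≠ q₂) (h13 : q₁ ≠ q₃) (h14 : q₁ ≠ q₄) (h23 : q₂ ≠ q₃)
    (h24 : q₂ ≠ q₄) (h34 : q₃ ≠ q₄) (a₁ a₂ a₃ a₄ : ℕ) (c₁ : a₁.Coprime q₁) (c₂ : a₂.Coprime q₂)
    (c₃ : a₃.Coprime q₃) (c₄ : a₄.Coprime q₄) :
    ∃ k : ℕ, k.Coprime (q₁ * q₂ * (q₃ * q₄)) ∧ (k : ZMod q₁) = a₁ ∧ (k : ZMod q₂) = a₂ ∧
      (k : ZMod q₃) = a₃ ∧ (k : ZMod q₄) = a₄ := by
  obtain ⟨x, hx, hx1, hx2⟩ := h85_crt ((Nat.coprime_primes h₁ h₂).mpr h12) a₁ a₂ c₁ c₂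
  obtain ⟨y, hy, hy3, hy4⟩ := h85_crt ((Nat.coprime_primes h₃ h₄).mpr h34) a₃ a₄ c₃ c₄
  have co : (q₁ * q₂).Coprime (q₃ * q₄) := by
    refine Nat.Coprime.mul_left (Nat.Coprime.mul_right ?_ ?_) (Nat.Coprime.mul_right ?_ ?_)
    · exact (Nat.coprime_primes h₁ h₃).mpr h13
    · exact (Nat.coprime_primes h₁ h₄).mpr h14
    · exact (Nat.coprime_primes h₂ h₃).mpr h23
    · exact (Nat.coprime_primes h₂ h₄).mpr h24
  obtain ⟨k, hk, hkx, hky⟩ := h85_crt co x y hx hy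
  obtain ⟨k1, k2⟩ := h85_down hkx
  obtain ⟨k3, k4⟩ := h85_down hky
  exact ⟨k, hk, k1.trans hx1, k2.trans hx2, k3.trans hy3, k4.trans hy4⟩

private lemma h85_cop {a q : ℕ} (hq : q.Prime) (ha : 0 < a) (h : a < q) : a.Coprime q :=
  ((hq.coprime_iff_not_dvd.mpr fun hd => absurd (Nat.le_of_dvd ha hd) (by omega)).symm)

private lemma h85_neg {q : ℕ} (hq : q.Prime) : ((q - 1 : ℕ) : ZMod q) = -1 := by
  rw [Nat.cast_sub hq.one_lt.le]
  simp

private lemma h85_ne {q : ℕ} {a : ℕ} (h2 : 1 < a) (h : a < q) (hq1 : 1 < q) :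
    ((a : ℕ) : ZMod q) ≠ 1 := by
  intro h'
  have h1 : ((a : ℕ) : ZMod q) = ((1 : ℕ) : ZMod q) := by simpa using h'
  rw [ZMod.natCast_eq_natCast_iff] at h1
  have := Nat.ModEq.eq_of_lt_of_lt h1 h hq1
  omega

/-- There is a root of `x² + x + 1` modulo a prime `D ≡ 1 (mod 3)`. -/
private lemma h85_root {D : ℕ} (hD : D.Prime) (h : 3 ∣ D - 1) :
    ∃ a : ℕ, a.Coprime D ∧ (a : ZMod D) ^ 2 + (a : ZMod D) + 1 = 0 := by
  have := Fact.mk hD
  have hc : Nat.card (ZMod D)ˣ = D - 1 := by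
    rw [Nat.card_eq_fintype_card, ZMod.card_units]
  have : Fact (Nat.Prime 3) := ⟨Nat.prime_three⟩
  obtain ⟨u, hu⟩ := exists_prime_orderOf_dvd_card' (G := (ZMod D)ˣ) 3 (by rw [hc]; exact h)
  have h3 : (u : ZMod D) ^ 3 = 1 := by
    rw [← Units.val_pow_eq_pow_val, ← hu, pow_orderOf_eq_one]; rfl
  have h1 : (u : ZMod D) ≠ 1 := by
    intro h'
    have : u = 1 := Units.ext h'
    rw [this, orderOf_one] at hu
    omega
  have h4 : ((u : ZMod D) - 1) * ((u : ZMod D) ^ 2 + (u : ZMod D) + 1) = 0 := by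
    have : ((u : ZMod D) - 1) * ((u : ZMod D) ^ 2 + (u : ZMod D) + 1) = (u : ZMod D) ^ 3 - 1 := by
      ring
    rw [this, h3, sub_self]
  have h5 := (mul_eq_zero.mp h4).resolve_left (sub_ne_zero.mpr h1)
  have h6 : (((u : ZMod D).val : ℕ) : ZMod D) = (u : ZMod D) := ZMod.natCast_zmod_val _
  refine ⟨(u : ZMod D).val, ?_, ?_⟩
  · exact (ZMod.isUnit_iff_coprime _ _).mp (by rw [h6]; exact u.isUnit)
  · rw [h6]; exact h5

/-- existence of `w` -/
theorem exists_w {B C D : ℕ} (h : HypQ B C D) : ∃ w, HypW B C D w := by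
  have hD3 : 3 ∣ D - 1 := by
    have := h.D42
    omega
  obtain ⟨a, ha, ha1⟩ := h85_root h.pD hD3
  have p7 : Nat.Prime 7 := by norm_num
  have hB := h.B7
  have hC := h.C7
  have hD := h.D7
  obtain ⟨k, hk, k1, k2, k3, k4⟩ := h85_four h.pB h.pC h.pD p7 h.BC h.BD (by omega) h.CD
    (by omega) (by omega) (B - 1) 2 a 3 (h85_cop h.pB (by omega) (by omega))
    (h85_cop h.pC (by omega) (by omega)) ha (by norm_num)
  have hq : B * C * (D * 7) ≠ 0 := by positivity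
  obtain ⟨w, hw, pw, hwk⟩ := Nat.forall_exists_prime_gt_and_modEq (B + C + D) hq hk
  have e := (ZMod.natCast_eq_natCast_iff w k (B * C * (D * 7))).mpr hwk
  obtain ⟨e1, e2⟩ := h85_down e
  obtain ⟨eB, eC⟩ := h85_down e1
  obtain ⟨eD, e7⟩ := h85_down e2
  refine ⟨w, pw, by omega, by omega, by omega, ?_, ?_, ?_, ?_⟩
  · rw [eB, k1, h85_neg h.pB]
  · rw [eD, k3]; exact ha1
  · intro j hj hj3
    have hC11 : 8 < C := by
      rcases Nat.lt_or_ge 8 C with h8 | h8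
      · exact h8
      · have : C = 8 := by omega
        have := h.pC
        subst C
        norm_num at this
    rw [eC, k2]
    interval_cases j
    · have := h85_ne (q := C) (a := 2) (by omega) (by omega) (by omega)
      simpa using this
    · have := h85_ne (q := C) (a := 4) (by omega) (by omega) (by omega)
      norm_num at this ⊢
      exact this
    · have := h85_ne (q := C) (a := 8) (by omega) (by omega) (by omega)
      norm_num at this ⊢
      exact this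
  · intro j hj hj3
    rw [e7, k4]
    interval_cases j <;> decide

/-- existence of `v` -/
theorem exists_v {B C D w : ℕ} (h : HypQ B C D) (hw : HypW B C D w) :
    ∃ v, HypV B C D w v := by
  have p7 : Nat.Prime 7 := by norm_num
  have hB := h.B7
  have hC := h.C7
  have hD := h.D7
  have hBw := hw.Bw
  have hCw := hw.Cw
  have hDw := hw.Dw
  obtain ⟨k, hk, k1, k2, k3, k4⟩ := h85_four h.pB h.pC h.pD p7 h.BC h.BD (by omega) h.CD
    (by omega) (by omega) (B - 1) 1 (D - 1) 3 (h85_cop h.pB (by omega) (by omega))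
    (h85_cop h.pC (by omega) (by omega)) (h85_cop h.pD (by omega) (by omega)) (by norm_num)
  have co : (B * C * (D * 7)).Coprime w := by
    refine Nat.Coprime.mul_left (Nat.Coprime.mul_left ?_ ?_) (Nat.Coprime.mul_left ?_ ?_)
    · exact (Nat.coprime_primes h.pB hw.pw).mpr (by omega)
    · exact (Nat.coprime_primes h.pC hw.pw).mpr (by omega)
    · exact (Nat.coprime_primes h.pD hw.pw).mpr (by omega)
    · exact (Nat.coprime_primes p7 hw.pw).mpr (by omega)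
  obtain ⟨l, hl, l1, l2⟩ := h85_crt co k 2 hk (h85_cop hw.pw (by omega) (by omega))
  have hq : B * C * (D * 7) * w ≠ 0 := by
    have : 0 < w := hw.pw.pos
    positivity
  obtain ⟨v, hv, pv, hvk⟩ := Nat.forall_exists_prime_gt_and_modEq (w ^ 3) hq hl
  have e := (ZMod.natCast_eq_natCast_iff v l (B * C * (D * 7) * w)).mpr hvk
  obtain ⟨e0, ew⟩ := h85_down e
  rw [l1] at e0
  obtain ⟨e1, e2⟩ := h85_down e0
  obtain ⟨eB, eC⟩ := h85_down e1
  obtain ⟨eD, e7⟩ := h85_down e2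
  refine ⟨v, pv, hv, ?_, ?_, ?_, ?_, ?_⟩
  · rw [eB, k1, h85_neg h.pB]
  · rw [eD, k3, h85_neg h.pD]
  · rw [eC, k2]; simp
  · intro j hj hj3
    rw [e7, k4]
    interval_cases j <;> decide
  · intro j hj hj3
    rw [ew, l2]
    interval_cases j
    · have := h85_ne (q := w) (a := 2) (by omega) (by omega) (by omega)
      simpa using this
    · have := h85_ne (q := w) (a := 4) (by omega) (by omega) (by omega)
      norm_num at this ⊢
      exact this

end Pool.Agent.helper74.GN
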